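import Pool.Agent.Q214.SG.Closed
import Pool.Agent.H534R3.NonBorel

/-!
# A Borel set whose sections have finite Borel chromatic number for the shift graph, and whose
complement has no full Borel uniformization

Let `T x` be closed sets (of witnesses for the comparison of two trees coded by `x`) which are not
empty, but such that no Borel function chooses a point in `T x`.  The complement of the example
consists of the pairs `(x, y)` such that, for some `k`, some member of `T x` is bounded by the
increasing enumeration of `y` shifted by `k`.  Since the functions bounded by a given function form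
a compact set, this is an `F_σ` set, and a Borel uniformization of it would give a Borel choice of
witnesses.  On the other hand, if `b` is in `T x` then no point `y` of the section dominates `b`; so
`y` contains infinitely many pairs of consecutive elements in a common interval of a partition of
`ℕ` which depends on `b` only, and this gives a Borel colouring of the section with four colours.
-/

set_option autoImplicit false

open Set MeasureTheory Topology Q214.SG

namespace Pool.Agent.Results.MP_bd9785_lc.NoUniformization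

/-- Adjacency in the shift graph: `y`, `z` are distinct and `z = S(y)` or `y = S(z)`, where
`S(y) = y ∖ {min y}`. -/
def Adj (y z : InfSub) : Prop := y ≠ z ∧ (z = shift y ∨ y = shift z)

instance : PolishSpace (ℕ → ℕ) := inferInstance

lemma rb_reverse (f : ℕ → ℕ) (n : ℕ) : (rb f n).reverse = Pool.Agent.H534R3.NonBorel.br f n := by
  induction n with
  | zero => rfl
  | succ n ih =>
    rw [rb, List.reverse_cons, ih]
    simp [Pool.Agent.H534R3.NonBorel.br, List.range_succ]

lemma exists_rcode {A : Set (ℕ → ℕ)} (hA : AnalyticSet A) :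
    ∃ c : List ℕ → List ℕ → Prop, ∀ x, x ∈ A ↔ ∃ f : ℕ → ℕ, ∀ n, c (rb x n) (rb f n) := by
  obtain ⟨c, hc⟩ := Pool.Agent.H534R3.NonBorel.exists_code A hA
  refine ⟨fun u w => c u.reverse w.reverse, fun x => ?_⟩
  simp only [rb_reverse]
  rw [hc]
  rfl

/-- The complement of the example. -/
def D : Set ((ℕ → ℕ) × InfSub) := ⋃ k, (Bdd W0 k ∪ Bdd W1 k)

/-- Every Borel set `Q` of points of the Baire space fails to separate the witnesses. -/
theorem no_separation (Q : Set (ℕ → ℕ)) (hQ : MeasurableSet Q)
    (h1 : ∀ x ∈ Q, ∃ b, (x, b) ∈ W1) (h0 : ∀ x, x ∉ Q → ∃ b, (x, b) ∈ W0) : False := by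
  classical
  obtain ⟨c0, hc0⟩ := exists_rcode hQ.compl.analyticSet
  obtain ⟨c1, hc1⟩ := exists_rcode hQ.analyticSet
  -- the point coding the two analytic sets
  obtain ⟨x, hx⟩ : ∃ x : ℕ → ℕ, ∀ u w, (code x 0 u w ↔ c0 u w) ∧ (code x 1 u w ↔ c1 u w) := by
    refine ⟨fun m => if (∃ u w, m = 2 * Encodable.encode ((u, w) : List ℕ × List ℕ) ∧ c0 u w) ∨
      (∃ u w, m = 2 * Encodable.encode ((u, w) : List ℕ × List ℕ) + 1 ∧ c1 u w) then 0 else 1,
      fun u w => ⟨?_, ?_⟩⟩
    · simp only [code, add_zero]
      constructor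
      · intro h
        by_contra hcon
        rw [if_neg] at h
        · exact absurd h (by norm_num)
        · rintro (⟨u', w', h1, h2⟩ | ⟨u', w', h1, h2⟩)
          · have h3 : Encodable.encode (u, w) = Encodable.encode (u', w') := by omega
            have h4 := Encodable.encode_injective h3
            simp only [Prod.mk.injEq] at h4
            rw [← h4.1, ← h4.2] at h2
            exact hcon h2
          · omega
      · intro h
        rw [if_pos]
        exact Or.inl ⟨u, w, rfl, h⟩
    · simp only [code]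
      constructor
      · intro h
        by_contra hcon
        rw [if_neg] at h
        · exact absurd h (by norm_num)
        · rintro (⟨u', w', h1, h2⟩ | ⟨u', w', h1, h2⟩)
          · omega
          · have h3 : Encodable.encode (u, w) = Encodable.encode (u', w') := by omega
            have h4 := Encodable.encode_injective h3
            simp only [Prod.mk.injEq] at h4
            rw [← h4.1, ← h4.2] at h2
            exact hcon h2
      · intro h
        rw [if_pos]
        exact Or.inr ⟨u, w, rfl, h⟩
  have hb0 : x ∉ Q ↔ ∃ f : ℕ → ℕ, ∀ n, inTr x 0 (rb f n) := by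
    rw [show (x ∉ Q ↔ x ∈ Qᶜ) from Iff.rfl, hc0]
    refine exists_congr fun f => ?_
    rw [inTr_rb]
    exact forall_congr' fun n => (hx _ _).1.symm
  have hb1 : x ∈ Q ↔ ∃ f : ℕ → ℕ, ∀ n, inTr x 1 (rb f n) := by
    rw [hc1]
    refine exists_congr fun f => ?_
    rw [inTr_rb]
    exact forall_congr' fun n => (hx _ _).2.symm
  by_cases hxQ : x ∈ Q
  · obtain ⟨b, hb⟩ := h1 x hxQ
    obtain ⟨f, hf⟩ := hb1.1 hxQ
    refine (hb0.2 ⟨fun n => lab b (rb f n), fun n => ?_⟩) hxQ
    cases n with
    | zero => exact (hb [] (hf 0)).2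
    | succ n =>
      have := hb (rb f n) (hf n)
      rw [F1_rb] at this
      exact this
  · obtain ⟨b, hb⟩ := h0 x hxQ
    obtain ⟨f, hf⟩ := hb0.1 hxQ
    refine hxQ (hb1.2 ⟨fun n => lab b (rb f (n + 1)), fun n => ?_⟩)
    have := hb (rb f n) (hf n)
    rw [F0_rb] at this
    exact this

/-- There is a `G_δ` set `B ⊆ ℕ^ℕ × [ℕ]^ℕ` such that for every `x` the shift graph restricted to the
section `B_x` has a Borel colouring with four colours, but there is no Borel function
`f : ℕ^ℕ → [ℕ]^ℕ` with `(x, f(x)) ∉ B` for all `x`.  Here `[ℕ]^ℕ` is the space `InfSub` of the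
infinite subsets of `ℕ`. -/
theorem result :
    ∃ B : Set ((ℕ → ℕ) × InfSub), IsGδ B ∧ MeasurableSet B ∧
      (∀ x, ∃ c : {y : InfSub // (x, y) ∈ B} → Fin 4, Measurable c ∧
        ∀ y z, Adj y.1 z.1 → c y ≠ c z) ∧
      ¬ ∃ f : (ℕ → ℕ) → InfSub, Measurable f ∧ ∀ x, (x, f x) ∉ B := by
  have hcl0 : ∀ k, IsClosed (Bdd W0 k) := isClosed_bdd isClosed_W0
  have hcl1 : ∀ k, IsClosed (Bdd W1 k) := isClosed_bdd isClosed_W1
  have hG : IsGδ Dᶜ := by
    rw [D, compl_iUnion]
    exact IsGδ.iInter fun k => ((hcl0 k).union (hcl1 k)).isOpen_compl.isGδ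
  refine ⟨Dᶜ, hG, hG.measurableSet, fun x => ?_, ?_⟩
  · obtain ⟨b, hb⟩ := exists_witness x
    obtain ⟨c, hc, hc2⟩ := slow_colour b
    have hslow : ∀ y : InfSub, (x, y) ∈ Dᶜ → y ∈ Slow b := by
      intro y hy k
      by_contra hcon
      push Not at hcon
      refine hy (mem_iUnion.2 ⟨k, ?_⟩)
      rcases hb with hb | hb
      · exact Or.inl ⟨b, hb, hcon⟩
      · exact Or.inr ⟨b, hb, hcon⟩
    refine ⟨fun y => c y.1, hc.comp measurable_subtype_coe, ?_⟩
    rintro ⟨y, hy⟩ ⟨z, hz⟩ ⟨-, h | h⟩
    · simp only at h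
      subst h
      exact hc2 y (hslow y hy)
    · simp only at h
      subst h
      exact (hc2 z (hslow z hz)).symm
  · rintro ⟨f, hf, hfD⟩
    have hfD' : ∀ x, (x, f x) ∈ D := fun x => not_not.1 (hfD x)
    let Q : Set (ℕ → ℕ) := {x | (x, f x) ∈ ⋃ k, Bdd W1 k}
    have hQ : MeasurableSet Q :=
      (measurable_id.prodMk hf) (MeasurableSet.iUnion fun k => (hcl1 k).measurableSet)
    refine no_separation Q hQ ?_ ?_
    · intro x hx
      obtain ⟨k, b, hb, -⟩ := mem_iUnion.1 hx
      exact ⟨b, hb⟩
    · intro x hx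
      obtain ⟨k, hk⟩ := mem_iUnion.1 (hfD' x)
      rcases hk with hk | hk
      · obtain ⟨b, hb, -⟩ := hk
        exact ⟨b, hb⟩
      · exact absurd (mem_iUnion.2 ⟨k, hk⟩) hx

end Pool.Agent.Results.MP_bd9785_lc.NoUniformization
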